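import Mathlib
import Pool.Agent.Helper359.Density

/-!
# MP_7826f3_co, Q2: `ϑ_var < 2π/√27`

The discs of diameter `1` centred at the points of the lattice generated by `p = (√3 ρ, 0)` and
`q = (√3 ρ/2, 3ρ/2)`, `ρ = 57/100`, leave small triangular holes around the circumcentres of the
lattice triangles (of circumradius `ρ > 1/2`).  Centre at every edge midpoint of the lattice
triangulation an ellipse with major axis `1` perpendicular to the edge and with minor axis
`99/1000`.  The three ellipses that pass through a hole cover it, so that discs and ellipses cover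
the plane, with density `(π/4) (1 + 3 · 99/1000) / (3√3/2 ρ²) = (6485/6498) · 2π/√27`.
-/

set_option autoImplicit false

namespace Pool.Agent.Results.MP_7826f3_co.ThinnerCovering

open MeasureTheory Filter Set
open scoped ENNReal

/-- the Euclidean plane -/
abbrev Plane := EuclideanSpace ℝ (Fin 2)

/-- The closed elliptical region with centre `c`, whose semi-axes are the vectors `(1/2) u` and
`(b/2) v` (`u`, `v` orthogonal unit vectors, see `IsEllipse`): the set of the points
`c + s (1/2) u + t (b/2) v` with `s² + t² ≤ 1`. -/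
def ellipse (c u v : Plane) (b : ℝ) : Set Plane :=
  {x | ∃ s t : ℝ, s ^ 2 + t ^ 2 ≤ 1 ∧ x = c + (s * (1 / 2)) • u + (t * (b / 2)) • v}

/-- `E` is an ellipse of diameter `1` whose minor axis has length `b ∈ (0, 1]` (a closed
elliptical region whose major axis has length `1`, in any position). -/
def IsEllipse (b : ℝ) (E : Set Plane) : Prop :=
  0 < b ∧ b ≤ 1 ∧ ∃ c u v : Plane, ‖u‖ = 1 ∧ ‖v‖ = 1 ∧ inner ℝ u v = 0 ∧ E = ellipse c u v b

/-- coverings by ellipses of diameter `1`, the eccentricities being arbitrary -/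
structure IsCovering (𝓒 : Set (Set Plane)) : Prop where
  countable : 𝓒.Countable
  ellipses : ∀ E ∈ 𝓒, ∃ b, IsEllipse b E
  covers : ⋃₀ 𝓒 = univ

/-- The sum of the areas of `E ∩ B_r` over the members `E` of the family, divided by the area of
the disc `B_r` of radius `r` around the origin. -/
noncomputable def densityAt (𝓒 : Set (Set Plane)) (r : ℝ) : ℝ≥0∞ :=
  (∑' E : {E : Set Plane // E ∈ 𝓒}, volume ((E : Set Plane) ∩ Metric.closedBall 0 r))
    / volume (Metric.closedBall (0 : Plane) r)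

/-- lower density of a family -/
noncomputable def lowerDensity (𝓒 : Set (Set Plane)) : ℝ≥0∞ := liminf (densityAt 𝓒) atTop

/-- `ϑ_var`: the infimum of the lower densities of the coverings by ellipses of diameter `1` -/
noncomputable def thetaVar : ℝ≥0∞ := sInf {d | ∃ 𝓒, IsCovering 𝓒 ∧ d = lowerDensity 𝓒}

/-! ### The algebraic core -/

/-- the barycentric sector `α ≥ β ≥ γ` -/
theorem sector {α β γ : ℝ} (h : α + β + γ = 1) (h1 : β ≤ α) (h2 : γ ≤ β) (h3 : 0 ≤ γ) :
    12 * (57 / 100) ^ 2 * (β ^ 2 + β * γ + γ ^ 2) ≤ 1 ∨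
    9 * (57 / 100) ^ 2 * γ ^ 2 + 3 * (57 / 100) ^ 2 * (α - β) ^ 2 / (99 / 1000) ^ 2 ≤ 1 ∨
    9 * (57 / 100) ^ 2 * α ^ 2 + 3 * (57 / 100) ^ 2 * (β - γ) ^ 2 / (99 / 1000) ^ 2 ≤ (1:ℝ) := by
  obtain rfl : α = 1 - β - γ := by linarith
  have e1 : 9 * (57 / 100) ^ 2 * γ ^ 2 + 3 * (57 / 100) ^ 2 * (1 - β - γ - β) ^ 2 / (99 / 1000) ^ 2
    = 29241 / 10000 * γ ^ 2 + 36100 / 363 * (1 - 2 * β - γ) ^ 2 := by ring
  have e3 : 9 * (57 / 100) ^ 2 * (1 - β - γ) ^ 2 + 3 * (57 / 100) ^ 2 * (β - γ) ^ 2 / (99 / 1000) ^ 2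
    = 29241 / 10000 * (1 - β - γ) ^ 2 + 36100 / 363 * (β - γ) ^ 2 := by ring
  rw [e1, e3]
  have k0 : 0 ≤ 1 - 2 * β - γ := by linarith
  have k2 : 0 ≤ β - γ := by linarith
  rcases le_total 0 (46 * β - 227 * γ) with a1 | a1
  · left
    linarith [mul_nonneg a1 h3, mul_nonneg a1 k0, mul_nonneg h3 k0]
  have a1' : 0 ≤ 227 * γ - 46 * β := by linarith
  have c1 : ∀ β γ : ℝ, 0 ≤ 1 - 2 * β - γ → 0 ≤ 8230 * β + 6365 * γ - 4322 →
      0 ≤ 2302 * β - 199 * γ - 701 →
      29241 / 10000 * γ ^ 2 + 36100 / 363 * (1 - 2 * β - γ) ^ 2 ≤ 1 := by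
    intro β γ k0 a3' a5
    linarith [mul_nonneg a3' k0, mul_nonneg a3' a5, mul_nonneg k0 a5]
  rcases le_total 0 (2566 * β - 3267 * γ) with a2 | a2
  · rcases le_total 0 (4322 - 8230 * β - 6365 * γ) with a3 | a3
    · left
      linarith [mul_nonneg a1' a2, mul_nonneg a1' a3, mul_nonneg a2 a3]
    · right; left
      apply c1 _ _ k0 <;> linarith
  · have a2' : 0 ≤ 3267 * γ - 2566 * β := by linarith
    rcases le_total 0 (51173 - 88500 * β - 86750 * γ) with a4 | a4
    · left
      linarith [mul_nonneg a2' a4, mul_nonneg a2' k2, mul_nonneg a4 k2]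
    · have a4' : 0 ≤ 88500 * β + 86750 * γ - 51173 := by linarith
      rcases le_total 0 (2302 * β - 199 * γ - 701) with a5 | a5
      · right; left
        apply c1 _ _ k0 _ a5
        linarith
      · right; right
        have a5' : 0 ≤ 701 + 199 * γ - 2302 * β := by linarith
        linarith [mul_nonneg a4' k2, mul_nonneg a4' a5', mul_nonneg k2 a5']

/-- the disc condition at a vertex, in terms of the two other barycentric coordinates -/
def DC (x y : ℝ) : Prop := 12 * (57 / 100) ^ 2 * (x ^ 2 + x * y + y ^ 2) ≤ 1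

/-- the condition for the thin ellipse at the midpoint of the edge opposite to the vertex with
barycentric coordinate `z` -/
def NC (z x y : ℝ) : Prop :=
  9 * (57 / 100) ^ 2 * z ^ 2 + 3 * (57 / 100) ^ 2 * (x - y) ^ 2 / (99 / 1000) ^ 2 ≤ 1

theorem DC.symm {x y : ℝ} (h : DC x y) : DC y x := by
  unfold DC at *; linarith

theorem NC.symm {z x y : ℝ} (h : NC z x y) : NC z y x := by
  unfold NC at *
  have : (y - x) ^ 2 = (x - y) ^ 2 := by ring
  rw [this]; exact h

theorem bary {α β γ : ℝ} (h : α + β + γ = 1) (h1 : 0 ≤ α) (h2 : 0 ≤ β) (h3 : 0 ≤ γ) :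
    DC β γ ∨ DC α γ ∨ DC α β ∨ NC γ α β ∨ NC β α γ ∨ NC α β γ := by
  rcases le_total β α with a | a <;> rcases le_total γ β with b | b <;>
    rcases le_total γ α with c | c
  · rcases sector h a b h3 with h | h | h
    · exact Or.inl h
    · exact Or.inr (Or.inr (Or.inr (Or.inl h)))
    · exact Or.inr (Or.inr (Or.inr (Or.inr (Or.inr h))))
  · rcases sector h a b h3 with h | h | h
    · exact Or.inl h
    · exact Or.inr (Or.inr (Or.inr (Or.inl h)))
    · exact Or.inr (Or.inr (Or.inr (Or.inr (Or.inr h))))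
  · rcases sector (α := α) (β := γ) (γ := β) (by linarith) c b h2 with h | h | h
    · exact Or.inl (DC.symm h)
    · exact Or.inr (Or.inr (Or.inr (Or.inr (Or.inl h))))
    · exact Or.inr (Or.inr (Or.inr (Or.inr (Or.inr (NC.symm h)))))
  · rcases sector (α := γ) (β := α) (γ := β) (by linarith) c a h2 with h | h | h
    · exact Or.inr (Or.inr (Or.inl h))
    · exact Or.inr (Or.inr (Or.inr (Or.inr (Or.inl (NC.symm h)))))
    · exact Or.inr (Or.inr (Or.inr (Or.inl h)))
  · rcases sector (α := β) (β := α) (γ := γ) (by linarith) a c h3 with h | h | h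
    · exact Or.inr (Or.inl h)
    · exact Or.inr (Or.inr (Or.inr (Or.inl (NC.symm h))))
    · exact Or.inr (Or.inr (Or.inr (Or.inr (Or.inl h))))
  · rcases sector (α := β) (β := γ) (γ := α) (by linarith) b c h1 with h | h | h
    · exact Or.inr (Or.inl (DC.symm h))
    · exact Or.inr (Or.inr (Or.inr (Or.inr (Or.inr h))))
    · exact Or.inr (Or.inr (Or.inr (Or.inr (Or.inl (NC.symm h)))))
  · rcases sector (α := γ) (β := β) (γ := α) (by linarith) b a h1 with h | h | h
    · exact Or.inr (Or.inr (Or.inl (DC.symm h)))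
    · exact Or.inr (Or.inr (Or.inr (Or.inr (Or.inr (NC.symm h)))))
    · exact Or.inr (Or.inr (Or.inr (Or.inl (NC.symm h))))
  · rcases sector (α := γ) (β := β) (γ := α) (by linarith) b a h1 with h | h | h
    · exact Or.inr (Or.inr (Or.inl (DC.symm h)))
    · exact Or.inr (Or.inr (Or.inr (Or.inr (Or.inr (NC.symm h)))))
    · exact Or.inr (Or.inr (Or.inr (Or.inl (NC.symm h))))

/-! ### The family -/

/-- first lattice vector -/
noncomputable def pp : Plane := !₂[√3 * (57 / 100), 0]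

/-- second lattice vector -/
noncomputable def qq : Plane := !₂[√3 * (57 / 200), 3 * (57 / 200)]

/-- the four ellipses of a cell -/
noncomputable def C : Fin 4 → Set Plane
  | 0 => ellipse 0 !₂[1, 0] !₂[0, 1] 1
  | 1 => ellipse ((1 / 2 : ℝ) • pp) !₂[0, 1] !₂[1, 0] (99 / 1000)
  | 2 => ellipse ((1 / 2 : ℝ) • qq) !₂[-(√3 / 2), 1 / 2] !₂[1 / 2, √3 / 2] (99 / 1000)
  | 3 => ellipse ((1 / 2 : ℝ) • (pp + qq)) !₂[√3 / 2, 1 / 2] !₂[-(1 / 2), √3 / 2] (99 / 1000)

/-- `x` lies in some translate `pt v + C k` -/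
def Cov (x : Plane) : Prop := ∃ (k : Fin 4) (v : ℤ × ℤ), x - Helper359.pt pp qq v ∈ C k

theorem pt_add (v w : ℤ × ℤ) : Helper359.pt pp qq (v + w)
    = Helper359.pt pp qq v + Helper359.pt pp qq w := by
  simp only [Helper359.pt, Prod.fst_add, Prod.snd_add, Int.cast_add]
  module

theorem Cov.add {x : Plane} (h : Cov x) (w : ℤ × ℤ) : Cov (x + Helper359.pt pp qq w) := by
  obtain ⟨k, v, h⟩ := h
  refine ⟨k, v + w, ?_⟩
  rw [pt_add]
  convert h using 1
  abel

theorem ellipse_reflect {c u v x : Plane} {b : ℝ} (h : x ∈ ellipse c u v b) :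
    (2:ℝ) • c - x ∈ ellipse c u v b := by
  obtain ⟨s, t, hst, rfl⟩ := h
  refine ⟨-s, -t, by linarith [neg_sq s, neg_sq t], ?_⟩
  module

theorem Cov.neg {x : Plane} (h : Cov x) : Cov (-x) := by
  obtain ⟨k, v, h⟩ := h
  fin_cases k
  · refine ⟨0, -v, ?_⟩
    have h2 : (2:ℝ) • (0 : Plane) - (x - Helper359.pt pp qq v) ∈ C 0 := ellipse_reflect h
    have e : -x - Helper359.pt pp qq (-v) = (2:ℝ) • (0 : Plane) - (x - Helper359.pt pp qq v) := by
      simp only [Helper359.pt, Prod.fst_neg, Prod.snd_neg, Int.cast_neg]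
      module
    rw [e]; exact h2
  · refine ⟨1, -v + (-1, 0), ?_⟩
    have h2 : (2:ℝ) • ((1 / 2 : ℝ) • pp) - (x - Helper359.pt pp qq v) ∈ C 1 := ellipse_reflect h
    have e : -x - Helper359.pt pp qq (-v + (-1, 0))
        = (2:ℝ) • ((1 / 2 : ℝ) • pp) - (x - Helper359.pt pp qq v) := by
      simp only [Helper359.pt, Prod.fst_neg, Prod.snd_neg, Int.cast_neg, Prod.fst_add,
        Prod.snd_add, Int.cast_add, Int.cast_one, Int.cast_zero]
      module
    rw [e]; exact h2
  · refine ⟨2, -v + (0, -1), ?_⟩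
    have h2 : (2:ℝ) • ((1 / 2 : ℝ) • qq) - (x - Helper359.pt pp qq v) ∈ C 2 := ellipse_reflect h
    have e : -x - Helper359.pt pp qq (-v + (0, -1))
        = (2:ℝ) • ((1 / 2 : ℝ) • qq) - (x - Helper359.pt pp qq v) := by
      simp only [Helper359.pt, Prod.fst_neg, Prod.snd_neg, Int.cast_neg, Prod.fst_add,
        Prod.snd_add, Int.cast_add, Int.cast_one, Int.cast_zero]
      module
    rw [e]; exact h2
  · refine ⟨3, -v + (-1, -1), ?_⟩
    have h2 : (2:ℝ) • ((1 / 2 : ℝ) • (pp + qq)) - (x - Helper359.pt pp qq v) ∈ C 3 :=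
      ellipse_reflect h
    have e : -x - Helper359.pt pp qq (-v + (-1, -1))
        = (2:ℝ) • ((1 / 2 : ℝ) • (pp + qq)) - (x - Helper359.pt pp qq v) := by
      simp only [Helper359.pt, Prod.fst_neg, Prod.snd_neg, Int.cast_neg, Prod.fst_add,
        Prod.snd_add, Int.cast_add, Int.cast_one, Int.cast_zero]
      module
    rw [e]; exact h2

theorem sq3 : √3 * √3 = (3:ℝ) := Real.mul_self_sqrt (by norm_num)

theorem mem_disc {x y : ℝ} (z : Plane) (h : DC x y) (hz : z = x • pp + y • qq) : z ∈ C 0 := by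
  refine ⟨2 * z 0, 2 * z 1, ?_, ?_⟩
  · subst hz
    simp [pp, qq]
    unfold DC at h
    calc _ = 12 * (57 / 100) ^ 2 * ((√3 * √3 / 3) * (x ^ 2 + x * y)
          + y ^ 2 * (√3 * √3 / 12 + 3 / 4)) := by ring
      _ = 12 * (57 / 100) ^ 2 * (x ^ 2 + x * y + y ^ 2) := by rw [sq3]; ring
      _ ≤ 1 := h
  · ext i
    fin_cases i <;> simp <;> ring

theorem nc_sq {z x y : ℝ} (h : NC z x y) :
    (3 * (57 / 100) * z) ^ 2 + (√3 * (57 / 100) / (99 / 1000) * (x - y)) ^ 2 ≤ 1 := by
  unfold NC at h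
  calc _ = 9 * (57 / 100) ^ 2 * z ^ 2 + (√3 * √3) * (57 / 100) ^ 2 * (x - y) ^ 2 / (99 / 1000) ^ 2 := by
        ring
    _ ≤ 1 := by rw [sq3]; exact h

theorem mem_one {α β γ : ℝ} (z : Plane) (hs : α + β + γ = 1) (h : NC γ α β)
    (hz : z = β • pp + γ • qq) : z ∈ C 1 := by
  refine ⟨3 * (57 / 100) * γ, -(√3 * (57 / 100) / (99 / 1000) * (α - β)), ?_, ?_⟩
  · rw [neg_sq]; exact nc_sq h
  · obtain rfl : α = 1 - β - γ := by linarith
    subst hz
    ext i
    fin_cases i
    · simp [pp, qq]; ring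
    · simp [pp, qq]; ring

theorem mem_two {α β γ : ℝ} (z : Plane) (hs : α + β + γ = 1) (h : NC β α γ)
    (hz : z = β • pp + γ • qq) : z ∈ C 2 := by
  refine ⟨-(3 * (57 / 100) * β), -(√3 * (57 / 100) / (99 / 1000) * (α - γ)), ?_, ?_⟩
  · rw [neg_sq, neg_sq]; exact nc_sq h
  · obtain rfl : α = 1 - β - γ := by linarith
    subst hz
    ext i
    fin_cases i
    · simp [pp, qq]; ring
    · simp [pp, qq]
      linear_combination (57 / 100 * (1 - β - γ - γ) / 4) * sq3

theorem mem_three {α β γ : ℝ} (z : Plane) (hs : α + β + γ = 1) (h : NC α β γ)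
    (hz : z = β • pp + γ • qq) : z ∈ C 3 := by
  refine ⟨-(3 * (57 / 100) * α), -(√3 * (57 / 100) / (99 / 1000) * (β - γ)), ?_, ?_⟩
  · rw [neg_sq, neg_sq]; exact nc_sq h
  · obtain rfl : α = 1 - β - γ := by linarith
    subst hz
    ext i
    fin_cases i
    · simp [pp, qq]; ring
    · simp [pp, qq]
      linear_combination (57 / 100 * (β - γ) / 4) * sq3

/-- the triangle with vertices `0, p, q` is covered -/
theorem lower {β γ : ℝ} (h1 : 0 ≤ β) (h2 : 0 ≤ γ) (h3 : β + γ ≤ 1) :
    Cov (β • pp + γ • qq) := by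
  rcases bary (α := 1 - β - γ) (β := β) (γ := γ) (by ring) (by linarith) h1 h2 with
    h | h | h | h | h | h
  · exact ⟨0, (0, 0), mem_disc _ h (by simp [Helper359.pt])⟩
  · refine ⟨0, (1, 0), mem_disc (x := -(1 - β - γ) - γ) (y := γ) _ ?_ ?_⟩
    · unfold DC at *; linarith
    · simp [Helper359.pt]; module
  · refine ⟨0, (0, 1), mem_disc (x := β) (y := -(1 - β - γ) - β) _ ?_ ?_⟩
    · unfold DC at *; linarith
    · simp [Helper359.pt]; module
  · exact ⟨1, (0, 0), mem_one _ (by ring) h (by simp [Helper359.pt])⟩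
  · exact ⟨2, (0, 0), mem_two _ (by ring) h (by simp [Helper359.pt])⟩
  · exact ⟨3, (0, 0), mem_three _ (by ring) h (by simp [Helper359.pt])⟩

theorem dt_pq : Helper359.dt pp qq = √3 * (3 / 2 * (57 / 100) ^ 2) := by
  simp [Helper359.dt, pp, qq]; ring

theorem dt_pos : 0 < Helper359.dt pp qq := by
  rw [dt_pq]; positivity

/-- every point of the plane is covered -/
theorem cov_all (x : Plane) : Cov x := by
  have hD := dt_pos.ne'
  set s : ℝ := Helper359.dt x qq / Helper359.dt pp qq with hs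
  set t : ℝ := Helper359.dt pp x / Helper359.dt pp qq with ht
  have hx : x = s • pp + t • qq := Helper359.coords hD x
  have e : x = (Int.fract s • pp + Int.fract t • qq) + Helper359.pt pp qq (⌊s⌋, ⌊t⌋) := by
    conv_lhs => rw [hx]
    simp only [Helper359.pt, Int.fract]
    module
  rw [e]
  apply Cov.add
  have s0 := Int.fract_nonneg s
  have t0 := Int.fract_nonneg t
  have s1 := (Int.fract_lt_one s).le
  have t1 := (Int.fract_lt_one t).le
  rcases le_total (Int.fract s + Int.fract t) 1 with h | h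
  · exact lower s0 t0 h
  · have h2 := (lower (β := 1 - Int.fract s) (γ := 1 - Int.fract t) (by linarith) (by linarith)
      (by linarith)).neg.add (1, 1)
    convert h2 using 1
    simp only [Helper359.pt, Int.cast_one]
    module

/-! ### The members are ellipses of diameter 1 -/

theorem translate_ellipse (c u v t : Plane) (b : ℝ) :
    (fun x => t + x) '' ellipse c u v b = ellipse (t + c) u v b := by
  ext x
  constructor
  · rintro ⟨y, ⟨s, r, h, rfl⟩, rfl⟩
    exact ⟨s, r, h, by simp only; abel⟩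
  · rintro ⟨s, r, h, rfl⟩
    exact ⟨_, ⟨s, r, h, rfl⟩, by simp only; abel⟩

theorem isEllipse_translate {b : ℝ} {E : Set Plane} (h : IsEllipse b E) (t : Plane) :
    IsEllipse b ((fun x => t + x) '' E) := by
  obtain ⟨h1, h2, c, u, v, hu, hv, huv, rfl⟩ := h
  exact ⟨h1, h2, t + c, u, v, hu, hv, huv, translate_ellipse c u v t b⟩

theorem norm_vec {a b : ℝ} (h : a * a + b * b = 1) : ‖(!₂[a, b] : Plane)‖ = 1 := by
  rw [EuclideanSpace.norm_eq, Fin.sum_univ_two, Real.sqrt_eq_one]
  simp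
  linarith

theorem inner_vec {a b c d : ℝ} (h : a * c + b * d = 0) :
    inner ℝ (!₂[a, b] : Plane) !₂[c, d] = 0 := by
  simp [PiLp.inner_apply, Fin.sum_univ_two]
  linarith

theorem isEllipse_C0 : IsEllipse 1 (C 0) :=
  ⟨by norm_num, by norm_num, 0, !₂[1, 0], !₂[0, 1], norm_vec (by norm_num),
    norm_vec (by norm_num), inner_vec (by norm_num), rfl⟩

theorem isEllipse_C1 : IsEllipse (99 / 1000) (C 1) :=
  ⟨by norm_num, by norm_num, _, !₂[0, 1], !₂[1, 0], norm_vec (by norm_num),
    norm_vec (by norm_num), inner_vec (by norm_num), rfl⟩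

theorem isEllipse_C2 : IsEllipse (99 / 1000) (C 2) :=
  ⟨by norm_num, by norm_num, _, _, _, norm_vec (by linarith [sq3]),
    norm_vec (by linarith [sq3]), inner_vec (by ring), rfl⟩

theorem isEllipse_C3 : IsEllipse (99 / 1000) (C 3) :=
  ⟨by norm_num, by norm_num, _, _, _, norm_vec (by linarith [sq3]),
    norm_vec (by linarith [sq3]), inner_vec (by ring), rfl⟩

/-! ### Areas -/

theorem ellipse_eq (c u v : Plane) (b : ℝ) :
    ellipse c u v b = (fun x => c + x) ''
      (Helper359.Lmap ((1 / 2 : ℝ) • u) ((b / 2) • v) '' Metric.closedBall 0 1) := by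
  ext x
  simp only [ellipse, Set.mem_setOf_eq, Set.mem_image, exists_exists_and_eq_and,
    Helper359.Lmap_apply]
  constructor
  · rintro ⟨s, t, h, rfl⟩
    refine ⟨!₂[s, t], ?_, ?_⟩
    · rw [Metric.mem_closedBall, dist_zero_right, EuclideanSpace.norm_eq, Fin.sum_univ_two,
        Real.sqrt_le_iff]
      simpa using h
    · simp only [smul_smul]
      simp [add_assoc]
  · rintro ⟨y, hy, rfl⟩
    rw [Metric.mem_closedBall, dist_zero_right, EuclideanSpace.norm_eq, Fin.sum_univ_two,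
      Real.sqrt_le_iff] at hy
    refine ⟨y 0, y 1, by simpa using hy, ?_⟩
    simp only [smul_smul, add_assoc]

theorem vol_ellipse {E : Set Plane} {b : ℝ} (h : IsEllipse b E) :
    volume E = ENNReal.ofReal (Real.pi * b / 4) := by
  obtain ⟨h1, h2, c, u, v, hu, hv, huv, rfl⟩ := h
  rw [ellipse_eq, Helper359.vol_translate, Helper359.vol_Lmap,
    EuclideanSpace.volume_closedBall_fin_two]
  have hd : |Helper359.dt ((1 / 2 : ℝ) • u) ((b / 2) • v)| = b / 4 := by
    have hu' : u 0 ^ 2 + u 1 ^ 2 = 1 := by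
      have := EuclideanSpace.norm_eq u
      rw [hu, Fin.sum_univ_two, eq_comm, Real.sqrt_eq_one] at this
      simpa using this
    have hv' : v 0 ^ 2 + v 1 ^ 2 = 1 := by
      have := EuclideanSpace.norm_eq v
      rw [hv, Fin.sum_univ_two, eq_comm, Real.sqrt_eq_one] at this
      simpa using this
    have huv' : u 0 * v 0 + u 1 * v 1 = 0 := by
      rw [PiLp.inner_apply, Fin.sum_univ_two] at huv
      simp at huv
      linarith
    have hdt : Helper359.dt u v ^ 2 = 1 := by
      simp only [Helper359.dt]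
      nlinarith
    have e : Helper359.dt ((1 / 2 : ℝ) • u) ((b / 2) • v) = b / 4 * Helper359.dt u v := by
      simp [Helper359.dt]; ring
    rw [e, abs_mul, abs_of_pos (by positivity)]
    have : |Helper359.dt u v| = 1 := by
      rw [← Real.sqrt_sq_eq_abs, hdt, Real.sqrt_one]
    rw [this, mul_one]
  rw [hd]
  simp
  rw [← ENNReal.ofReal_mul (by positivity)]
  congr 1
  ring

theorem ellipse_subset {c u v : Plane} {b : ℝ} (hu : ‖u‖ = 1) (hv : ‖v‖ = 1) (hb : 0 < b)
    (hb1 : b ≤ 1) : ellipse c u v b ⊆ Metric.closedBall 0 (‖c‖ + 1) := by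
  rintro x ⟨s, t, h, rfl⟩
  rw [Metric.mem_closedBall, dist_zero_right]
  have hs : |s| ≤ 1 := by
    rw [← Real.sqrt_sq_eq_abs, Real.sqrt_le_iff]
    constructor <;> nlinarith
  have ht : |t| ≤ 1 := by
    rw [← Real.sqrt_sq_eq_abs, Real.sqrt_le_iff]
    constructor <;> nlinarith
  calc ‖c + (s * (1 / 2)) • u + (t * (b / 2)) • v‖
      ≤ ‖c‖ + ‖(s * (1 / 2)) • u‖ + ‖(t * (b / 2)) • v‖ := norm_add₃_le
    _ = ‖c‖ + |s| * (1 / 2) + |t| * (b / 2) := by
        rw [norm_smul, norm_smul, hu, hv, Real.norm_eq_abs, Real.norm_eq_abs, abs_mul, abs_mul,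
          abs_of_pos (by norm_num : (0:ℝ) < 1 / 2), abs_of_pos (by positivity : (0:ℝ) < b / 2)]
        ring
    _ ≤ ‖c‖ + 1 := by nlinarith [abs_nonneg s, abs_nonneg t]

theorem bounded {E : Set Plane} {b : ℝ} (h : IsEllipse b E) :
    ∃ c : ℝ, E ⊆ Metric.closedBall 0 c := by
  obtain ⟨h1, h2, c, u, v, hu, hv, -, rfl⟩ := h
  exact ⟨_, ellipse_subset hu hv h1 h2⟩

/-! ### The covering and its density -/

/-- the covering -/
noncomputable def fam : Set (Set Plane) := ⋃ k : Fin 4, Helper359.latt (C k) pp qq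

/-- the lengths of the minor axes -/
noncomputable def minor : Fin 4 → ℝ
  | 0 => 1
  | 1 => 99 / 1000
  | 2 => 99 / 1000
  | 3 => 99 / 1000

theorem isEllipse_C (k : Fin 4) : IsEllipse (minor k) (C k) := by
  fin_cases k
  · exact isEllipse_C0
  · exact isEllipse_C1
  · exact isEllipse_C2
  · exact isEllipse_C3

theorem fam_isEllipse {E : Set Plane} (hE : E ∈ fam) : IsEllipse 1 E ∨ IsEllipse (99 / 1000) E := by
  obtain ⟨k, v, rfl⟩ := Set.mem_iUnion.mp hE
  have := isEllipse_translate (isEllipse_C k) (Helper359.pt pp qq v)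
  fin_cases k
  · exact Or.inl this
  · exact Or.inr this
  · exact Or.inr this
  · exact Or.inr this

theorem fam_covering : IsCovering fam := by
  refine ⟨?_, ?_, ?_⟩
  · exact Set.countable_iUnion fun k => Set.countable_range _
  · intro E hE
    rcases fam_isEllipse hE with h | h
    · exact ⟨_, h⟩
    · exact ⟨_, h⟩
  · rw [Set.eq_univ_iff_forall]
    intro x
    obtain ⟨k, v, h⟩ := cov_all x
    exact ⟨_, Set.mem_iUnion.mpr ⟨k, v, rfl⟩, _, h, by simp⟩

theorem densityAt_eq (𝓒 : Set (Set Plane)) (r : ℝ) : densityAt 𝓒 r = Helper359.ratioCap 𝓒 r := rfl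

theorem densityAt_fam (r : ℝ) :
    densityAt fam r ≤ ∑ k : Fin 4, Helper359.ratioCap (Helper359.latt (C k) pp qq) r := by
  unfold densityAt Helper359.ratioCap
  simp only [div_eq_mul_inv]
  rw [← Finset.sum_mul]
  gcongr
  exact ENNReal.tsum_iUnion_le
    (fun E : Set Plane => volume (E ∩ Metric.closedBall 0 r))
    (fun k : Fin 4 => Helper359.latt (C k) pp qq)

theorem liminf_fam : lowerDensity fam ≤ ∑ k : Fin 4,
    ENNReal.ofReal (Real.pi * minor k / 4) / ENNReal.ofReal |Helper359.dt pp qq| := by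
  choose c hc using fun k => bounded (isEllipse_C k)
  have hk : ∀ k, ENNReal.ofReal (Real.pi * minor k / 4) / ENNReal.ofReal |Helper359.dt pp qq|
      ≠ ∞ := by
    intro k
    apply (ENNReal.div_lt_top ENNReal.ofReal_ne_top _).ne
    simp [dt_pos.ne']
  have ht : Tendsto (fun r : ℝ => ∑ k : Fin 4,
      volume (Metric.closedBall (0 : Helper359.E2) (r + (c k + (‖pp‖ + ‖qq‖))))
      / volume (Metric.closedBall (0 : Helper359.E2) r)
      * (ENNReal.ofReal (Real.pi * minor k / 4) / ENNReal.ofReal |Helper359.dt pp qq|)) atTop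
      (nhds (∑ k : Fin 4,
        ENNReal.ofReal (Real.pi * minor k / 4) / ENNReal.ofReal |Helper359.dt pp qq|)) :=
    tendsto_finset_sum _ fun k _ => Helper359.tendsto_aux _ (hk k)
  rw [← ht.liminf_eq]
  refine liminf_le_liminf (Eventually.of_forall fun r => ?_)
  refine (densityAt_fam r).trans (Finset.sum_le_sum fun k _ => ?_)
  have := Helper359.ratioCap_upper (hc k) dt_pos.ne' r
  rwa [vol_ellipse (isEllipse_C k)] at this

theorem total : ∑ k : Fin 4,
    ENNReal.ofReal (Real.pi * minor k / 4) / ENNReal.ofReal |Helper359.dt pp qq|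
    = ENNReal.ofReal (6485 / 6498 * (2 * Real.pi / √27)) := by
  have h27 : √27 = 3 * √3 := by
    rw [show (27:ℝ) = 3 ^ 2 * 3 by norm_num, Real.sqrt_mul (by norm_num),
      Real.sqrt_sq (by norm_num)]
  have h3 : (0:ℝ) < √3 := by positivity
  have hm : ∀ k, 0 ≤ minor k := fun k => (isEllipse_C k).1.le
  have e : ∑ k : Fin 4,
      ENNReal.ofReal (Real.pi * minor k / 4) / ENNReal.ofReal |Helper359.dt pp qq|
      = (∑ k : Fin 4, ENNReal.ofReal (Real.pi * minor k / 4)) /
        ENNReal.ofReal |Helper359.dt pp qq| := by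
    simp only [div_eq_mul_inv]
    rw [← Finset.sum_mul]
  rw [e, ← ENNReal.ofReal_sum_of_nonneg, abs_of_pos dt_pos,
    ← ENNReal.ofReal_div_of_pos dt_pos]
  · congr 1
    rw [dt_pq, h27]
    simp only [Fin.sum_univ_four, minor]
    field_simp
    norm_num
  · intro k _
    have := hm k
    positivity

/-- Q2 of MP_7826f3_co.  The infimum `ϑ_var` of the lower densities of the coverings of the plane
by ellipses of diameter `1` (with arbitrary eccentricities) is less than `2π/√27`.  There is a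
covering of lower density at most `(6485/6498) · 2π/√27` that uses ellipses of only two shapes:
discs of diameter `1` and ellipses with minor axis `99/1000`. -/
theorem result :
    thetaVar < ENNReal.ofReal (2 * Real.pi / √27) ∧
    ∃ 𝓒 : Set (Set Plane), IsCovering 𝓒 ∧ (∀ E ∈ 𝓒, IsEllipse 1 E ∨ IsEllipse (99 / 1000) E) ∧
      lowerDensity 𝓒 ≤ ENNReal.ofReal (6485 / 6498 * (2 * Real.pi / √27)) := by
  have h1 : lowerDensity fam ≤ ENNReal.ofReal (6485 / 6498 * (2 * Real.pi / √27)) :=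
    total ▸ liminf_fam
  refine ⟨?_, fam, fam_covering, fun E hE => fam_isEllipse hE, h1⟩
  have h2 : thetaVar ≤ lowerDensity fam := sInf_le ⟨fam, fam_covering, rfl⟩
  refine (h2.trans h1).trans_lt ?_
  have h3 : (0:ℝ) < 2 * Real.pi / √27 := by positivity
  rw [ENNReal.ofReal_lt_ofReal_iff h3]
  linarith

end Pool.Agent.Results.MP_7826f3_co.ThinnerCovering
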